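import Pool.Agent.H1Tv.TreeLower

/-!
# MP_92efc2_co: a lower bound for the Tverberg numbers of trees in every dimension

Definitions used in the statement.

* `Pool.Agent.H1Tv.GeneralPosition d S` (in `Pool.Agent.H1Tv.Clusters`): no `d + 1` points of `S`
  lie on a common affine hyperplane.
* `Pool.Agent.H1Tv.PartitionInduced K S` (in `Pool.Agent.H1Tv.Main`): some partition of `S` into
  nonempty classes `C v`, indexed by the vertices `v` of `K`, has nerve `K`.
* `Pool.Agent.H1Tv.treeComplex T` (in `Pool.Agent.H1Tv.TreeFinal`): the faces are the empty set, the
  one-element sets and the edges of `T`.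
* `tverbergNumber` below is the least `c` such that `K` is partition induced on every `S` in general
  position with `|S| > c`.

Proof. Take points of the moment curve of `ℝ ^ d`. If the convex hulls of two disjoint sets of such
points meet, then the two sets alternate along a sequence of length `d + 2`; so each of the two has
at least `⌊d / 2⌋ + 1` elements, and together they have at least `d + 2`. Every class of an inducing
partition meets the class of a neighbour, and for odd `d` the classes with at least `(d + 3) / 2`
points form a vertex cover of `T`.
-/

namespace Pool.Agent.Results.MP_92efc2_co.LowerBound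

open Pool.Agent.H1Tv

/-- The Tverberg number `Tv(K, d)`: the least `c` such that `K` is partition induced on every
finite set `S` of points of `ℝ ^ d` in general position with more than `c` elements. -/
noncomputable def tverbergNumber {V : Type} (K : Set (Finset V)) (d : ℕ) : ℕ :=
  sInf {c : ℕ | ∀ S : Finset (Fin d → ℝ), GeneralPosition d S → c < S.card → PartitionInduced K S}

/-- For every tree `T` with `n ≥ 2` nodes and every `d ≥ 2`, the Tverberg number satisfies
`Tv(T, d) + 1 ≥ n (⌊d / 2⌋ + 1) + (d mod 2) τ`, where `τ` is the size of some vertex cover `C` of `T`
(hence the bound holds with the vertex cover number of `T`). -/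
theorem result (V : Type) [Fintype V] [DecidableEq V] (T : SimpleGraph V) (hT : T.IsTree)
    (hV : 2 ≤ Fintype.card V) (d : ℕ) (hd : 2 ≤ d) :
    ∃ C : Finset V, (∀ v w, T.Adj v w → v ∈ C ∨ w ∈ C) ∧
      Fintype.card V * (d / 2 + 1) + (d % 2) * C.card ≤ tverbergNumber (treeComplex T) d + 1 := by
  have hne : {c : ℕ | ∀ S : Finset (Fin d → ℝ), GeneralPosition d S → c < S.card →
      PartitionInduced (treeComplex T) S}.Nonempty :=
    ⟨(d + 1) * (Fintype.card V - 1), fun S hS hc => tree_induced T hT d hd S hS hc⟩
  exact tree_lower T hT hV d (by omega) _ (Nat.sInf_mem hne)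

end Pool.Agent.Results.MP_92efc2_co.LowerBound
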