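import Pool.Agent.H1Tv.TreeFinal

/-!
# MP_92efc2_co: `Tv(T, d) ≤ (d + 1)(n - 1) + 1` for every tree `T` on `n` nodes and every `d ≥ 2`

Definitions used in the statement.

* `Pool.Agent.H1Tv.GeneralPosition d S` (in `Pool.Agent.H1Tv.Clusters`): no `d + 1` points of `S`
  lie on a common affine hyperplane.
* `Pool.Agent.H1Tv.PartitionInduced K S` (in `Pool.Agent.H1Tv.Main`): some partition of `S` into
  nonempty classes `C v`, indexed by the vertices `v` of `K`, has nerve `K`: for every finite set
  `F` of vertices, the convex hulls of the classes `C v`, `v ∈ F`, have a common point if and only
  if `F` is a face of `K`.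
* `Pool.Agent.H1Tv.treeComplex T` (in `Pool.Agent.H1Tv.TreeFinal`): the faces are the empty set, the
  one-element sets and the edges of `T`.
* `tverbergNumber` below is the least `c` such that `K` is partition induced on every `S` in general
  position with `|S| > c`.

Proof. Root the tree. Choose two linear functionals `f`, `g` such that no three points of `S` are
collinear under `(f, g)`. For a rooted tree with `n` nodes whose root has `k` children, separate
the point set by `f` into a set `B` of `(d + 1)(n - 1 - k)` low points and a set `A` of at least
`(d + 1) k` high points. For a child with `s` descendants below it, cut off `d + 1` points of `A`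
and `(d + 1) s` points of `B` by a hyperplane (`cut`: a generalised ham-sandwich cut for two
separated finite sets; existence follows from an injectivity argument by counting). Radon's theorem,
applied to the `d + 1` points of `A` and a point of the class of the root, makes the classes of the
child and of the root cross inside `A`; then treat the `(d + 1) s` points of `B` recursively, with
a new threshold of `f`. Classes of different branches are separated by the cuts, and a node is
separated from all nodes at distance at least two below it by a threshold of `f`.
-/

namespace Pool.Agent.Results.MP_92efc2_co.TreeBound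

open Pool.Agent.H1Tv

/-- The Tverberg number `Tv(K, d)`: the least `c` such that `K` is partition induced on every
finite set `S` of points of `ℝ ^ d` in general position with more than `c` elements. -/
noncomputable def tverbergNumber {V : Type} (K : Set (Finset V)) (d : ℕ) : ℕ :=
  sInf {c : ℕ | ∀ S : Finset (Fin d → ℝ), GeneralPosition d S → c < S.card → PartitionInduced K S}

/-- Every tree `T` with `n` nodes is, for every `d ≥ 2`, partition induced on every set of at least
`(d + 1)(n - 1) + 1` points of `ℝ ^ d` in general position. Hence `Tv(T, d) ≤ (d + 1)(n - 1)`, and
in particular `Tv(T, d) ≤ (d + 1)(n - 1) + 1`. -/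
theorem result (V : Type) [Fintype V] [DecidableEq V] (T : SimpleGraph V) (hT : T.IsTree)
    (d : ℕ) (hd : 2 ≤ d) :
    (∀ S : Finset (Fin d → ℝ), GeneralPosition d S →
      (d + 1) * (Fintype.card V - 1) + 1 ≤ S.card → PartitionInduced (treeComplex T) S) ∧
    tverbergNumber (treeComplex T) d ≤ (d + 1) * (Fintype.card V - 1) := by
  refine ⟨fun S hS hc => tree_induced T hT d hd S hS (by omega), ?_⟩
  exact Nat.sInf_le (fun S hS hc => tree_induced T hT d hd S hS hc)

end Pool.Agent.Results.MP_92efc2_co.TreeBound
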